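import Pool.Agent.X193.CHR.One

set_option autoImplicit false

universe u

namespace Pool.Agent.X193.CHR

open Filter

variable {C : Type}

/-! ### Regularity of the product objective -/

lemma lift_regular {W : Set (ℕ → C)} (hW : OmegaRegular W) (M : Type) [Finite M] (m₀ : M)
    (μ : M → C → M) : OmegaRegular (lift W M m₀ μ) := by
  classical
  obtain ⟨Q, hQ, q₀, δ, pr, h⟩ := hW
  let δ' : Option (Q × M) → M × C → Option (Q × M) := fun s x => match s with
    | none => none
    | some (q, m) => if x.1 = m then some (δ q x.2, μ m x.2) else none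
  let pr' : Option (Q × M) → M × C → ℕ := fun s x => match s with
    | none => 0
    | some (q, m) => if x.1 = m then pr q x.2 else 0
  refine ⟨Option (Q × M), inferInstance, some (q₀, m₀), δ', pr', fun x => ?_⟩
  by_cases hx : ∀ n, (x n).1 = mem m₀ μ (fun i => (x i).2) n
  · have hrun : ∀ n, mem (some (q₀, m₀)) δ' x n =
        some (mem q₀ δ (fun i => (x i).2) n, mem m₀ μ (fun i => (x i).2) n) := by
      intro n
      induction n with
      | zero => rfl
      | succ n ih =>
        show δ' (mem (some (q₀, m₀)) δ' x n) (x n) = _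
        rw [ih]
        exact if_pos (hx n)
    have hpr : ∀ n, pr' (mem (some (q₀, m₀)) δ' x n) (x n) =
        pr (mem q₀ δ (fun i => (x i).2) n) (x n).2 := by
      intro n
      rw [hrun n]
      exact if_pos (hx n)
    simp only [hpr]
    rw [← h (fun i => (x i).2)]
    exact ⟨fun hl => hl hx, fun hw _ => hw⟩
  · have hin : x ∈ lift W M m₀ μ := fun h' => absurd h' hx
    refine ⟨fun _ => ?_, fun _ => hin⟩
    push Not at hx
    obtain ⟨N, hN⟩ := hx
    have hsome : ∀ n q m, mem (some (q₀, m₀)) δ' x n = some (q, m) →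
        m = mem m₀ μ (fun i => (x i).2) n := by
      intro n
      induction n with
      | zero =>
        intro q m hqm
        have : (some (q₀, m₀) : Option (Q × M)) = some (q, m) := hqm
        simp only [Option.some.injEq, Prod.mk.injEq] at this
        exact this.2.symm
      | succ n ih =>
        intro q m hqm
        change δ' (mem (some (q₀, m₀)) δ' x n) (x n) = some (q, m) at hqm
        rcases hs : mem (some (q₀, m₀)) δ' x n with _ | ⟨q', m'⟩
        · rw [hs] at hqm
          exact absurd hqm (by simp [δ'])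
        · rw [hs] at hqm
          have hm' := ih q' m' hs
          change (if (x n).1 = m' then some (δ q' (x n).2, μ m' (x n).2) else none) = _ at hqm
          split_ifs at hqm with hc
          simp only [Option.some.injEq, Prod.mk.injEq] at hqm
          rw [← hqm.2, hm']
          rfl
    have hnone : ∀ n, N + 1 ≤ n → mem (some (q₀, m₀)) δ' x n = none := by
      intro n hn
      induction n, hn using Nat.le_induction with
      | base =>
        show δ' (mem (some (q₀, m₀)) δ' x N) (x N) = none
        rcases hs : mem (some (q₀, m₀)) δ' x N with _ | ⟨q', m'⟩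
        · rfl
        · have := hsome N q' m' hs
          exact if_neg (fun he => hN (by rw [he, this]))
      | succ n hn ih =>
        show δ' (mem (some (q₀, m₀)) δ' x n) (x n) = none
        rw [ih]
    have hev : ∀ᶠ n in atTop, pr' (mem (some (q₀, m₀)) δ' x n) (x n) = 0 :=
      eventually_atTop.2 ⟨N + 1, fun n hn => by rw [hnone n hn]⟩
    exact ⟨0, by decide, hev.frequently, hev.mono fun n hn => hn.le⟩

/-! ### One-player games -/

/-- In a one-player game a path with colours in `W` gives a winning strategy. -/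
lemma eveWins_of_path {G : Game.{u} C} (h1 : G.OnePlayer) {W : Set (ℕ → C)} {x : ℕ → G.V}
    {c : ℕ → C} (hx : G.IsPlay x c) (hc : c ∈ W) : G.EveWins W := by
  classical
  choose tc tw ht using G.total
  refine ⟨fun h v => if v = x h.length then (c h.length, x (h.length + 1)) else (tc v, tw v),
    fun h v _ => ?_, fun y d hy hd => ?_⟩
  · by_cases hv : v = x h.length
    · simp only [if_pos hv]
      rw [hv]; exact hx.2 _
    · simp only [if_neg hv]
      exact ht v
  · have hyx : ∀ n, y n = x n := by
      intro n
      induction n with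
      | zero => rw [hy.1, hx.1]
      | succ n ih =>
        have := congrArg Prod.snd (hd n (h1 _))
        simp only [hist_length, ih, if_true] at this
        exact this
    have hdc : d = c := by
      funext n
      have := congrArg Prod.fst (hd n (h1 _))
      simp only [hist_length, hyx n, if_true] at this
      exact this
    rw [hdc]; exact hc

section one

variable {M : Type} (m₀ : M) (μ : M → C → M) (G : Game.{u} (M × C))

/-- The vertex `v` is reached after `n` consistent steps, the expected memory state being `s`. -/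
inductive R : ℕ → G.V → M → Prop
  | zero : R 0 G.init m₀
  | succ (n : ℕ) (v w : G.V) (s : M) (c : C) : R n v s → G.edge v (s, c) w → R (n + 1) w (μ s c)

variable {m₀ μ G}

lemma R.unroll {n : ℕ} {v : G.V} {s : M} (h : R m₀ μ G n v s) :
    ∃ (x : ℕ → G.V) (t : ℕ → M) (d : ℕ → C), x 0 = G.init ∧ t 0 = m₀ ∧
      (∀ i < n, G.edge (x i) (t i, d i) (x (i + 1)) ∧ t (i + 1) = μ (t i) (d i)) ∧
      x n = v ∧ t n = s := by
  induction h with
  | zero =>
    obtain ⟨c, w, -⟩ := G.total G.init
    exact ⟨fun _ => G.init, fun _ => m₀, fun _ => c.2, rfl, rfl,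
      fun i hi => absurd hi (Nat.not_lt_zero i), rfl, rfl⟩
  | succ n v w s c hR he ih =>
    obtain ⟨x, t, d, h1, h2, h3, h4, h5⟩ := ih
    refine ⟨fun i => if i ≤ n then x i else w, fun i => if i ≤ n then t i else μ s c,
      fun i => if i < n then d i else c, ?_, ?_, fun i hi => ?_, ?_, ?_⟩
    · simp [h1]
    · simp [h2]
    · rcases Nat.lt_or_ge i n with hin | hin
      · simp only [if_pos hin.le, if_pos hin, if_pos (show i + 1 ≤ n by omega)]
        exact h3 i hin
      · have hi' : i = n := by omega
        subst hi'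
        simp only [le_refl, if_true, lt_irrefl, if_false, if_neg (show ¬ i + 1 ≤ i by omega),
          h4, h5]
        exact ⟨he, trivial⟩
    · simp
    · simp

/-- If some finite path breaks the memory structure, then a positional strategy does. -/
lemma positional_of_break (hG : G.OnePlayer) (W : Set (ℕ → C))
    (hbr : ∃ n v s l c w, R m₀ μ G n v s ∧ G.edge v (l, c) w ∧ l ≠ s) :
    G.PositionalWins (lift W M m₀ μ) := by
  classical
  have hmin := Nat.find_spec hbr
  have hlt : ∀ k, k < Nat.find hbr → ∀ v s l c w, R m₀ μ G k v s → G.edge v (l, c) w → l = s := by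
    intro k hk v s l c w h1 h2
    by_contra hne
    exact Nat.find_min hbr hk ⟨v, s, l, c, w, h1, h2, hne⟩
  generalize Nat.find hbr = n at hmin hlt
  obtain ⟨v, s, l, c, w, hR, he, hne⟩ := hmin
  obtain ⟨x, t, d, h1, h2, h3, h4, h5⟩ := hR.unroll
  have hRi : ∀ i, i ≤ n → R m₀ μ G i (x i) (t i) := by
    intro i
    induction i with
    | zero => intro _; rw [h1, h2]; exact R.zero
    | succ i ih =>
      intro hi
      rw [(h3 i (by omega)).2]
      exact R.succ i _ _ _ _ (ih (by omega)) (h3 i (by omega)).1
  have hinj : ∀ i j, i < j → j < n → x i ≠ x j := by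
    intro i j hij hj hxx
    have ht : t j = t i := hlt i (by omega) (x i) (t i) (t j) (d j) (x (j + 1)) (hRi i (by omega))
      (by rw [hxx]; exact (h3 j hj).1)
    have hk : ∀ k, j + k ≤ n → R m₀ μ G (i + k) (x (j + k)) (t (j + k)) := by
      intro k
      induction k with
      | zero =>
        intro _
        show R m₀ μ G i (x j) (t j)
        rw [← hxx, ht]; exact hRi i (by omega)
      | succ k ih =>
        intro hk
        show R m₀ μ G (i + k + 1) (x (j + k + 1)) (t (j + k + 1))
        rw [(h3 (j + k) (by omega)).2]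
        exact R.succ _ _ _ _ _ (ih (by omega)) (h3 (j + k) (by omega)).1
    have := hk (n - j) (by omega)
    rw [show j + (n - j) = n by omega, h4, h5] at this
    exact hne (hlt _ (by omega) _ _ _ _ _ this he)
  choose tc tw htot using G.total
  let f : G.V → Unit → (M × C) × G.V := fun u _ =>
    if h : ∃ i, i < n ∧ x i = u then ((t (Nat.find h), d (Nat.find h)), x (Nat.find h + 1))
    else if u = v then ((l, c), w) else (tc u, tw u)
  have hfi : ∀ i, i < n → f (x i) () = ((t i, d i), x (i + 1)) := by
    intro i hi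
    have hex : ∃ j, j < n ∧ x j = x i := ⟨i, hi, rfl⟩
    have hfind : Nat.find hex = i := by
      have hs := Nat.find_spec hex
      by_contra hne'
      rcases lt_or_gt_of_ne hne' with h' | h'
      · exact hinj _ _ h' hi hs.2
      · exact hinj _ _ h' hs.1 hs.2.symm
    show (if h : ∃ j, j < n ∧ x j = x i then _ else _) = _
    rw [dif_pos hex, hfind]
  refine ⟨f, fun u _ _ => ?_, fun y e hy hf => ?_⟩
  · by_cases hex : ∃ i, i < n ∧ x i = u
    · have hfu : f u () = ((t (Nat.find hex), d (Nat.find hex)), x (Nat.find hex + 1)) :=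
        dif_pos hex
      show G.edge u (f u ()).1 (f u ()).2
      rw [hfu]
      have hs := Nat.find_spec hex
      have := (h3 _ hs.1).1
      rw [hs.2] at this
      exact this
    · by_cases huv : u = v
      · have hfu : f u () = ((l, c), w) := by
          show (if h : ∃ i, i < n ∧ x i = u then _ else _) = _
          rw [dif_neg hex, if_pos huv]
        show G.edge u (f u ()).1 (f u ()).2
        rw [hfu, huv]; exact he
      · have hfu : f u () = (tc u, tw u) := by
          show (if h : ∃ i, i < n ∧ x i = u then _ else _) = _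
          rw [dif_neg hex, if_neg huv]
        show G.edge u (f u ()).1 (f u ()).2
        rw [hfu]; exact htot u
  · intro hcons
    exfalso
    have hf' : ∀ k, (e k, y (k + 1)) = f (y k) () := fun k => hf k (hG _)
    have hyx : ∀ i, i ≤ n → y i = x i ∧ mem m₀ μ (fun i => (e i).2) i = t i := by
      intro i
      induction i with
      | zero => intro _; exact ⟨by rw [hy.1, h1], by rw [h2]; rfl⟩
      | succ i ih =>
        intro hi
        obtain ⟨e1, e2⟩ := ih (by omega)
        have h6 := hf' i
        rw [e1, hfi i (by omega)] at h6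
        refine ⟨congrArg Prod.snd h6, ?_⟩
        show μ (mem m₀ μ (fun i => (e i).2) i) (e i).2 = _
        rw [e2, (h3 i (by omega)).2]
        have h7 := congrArg (fun z => z.1.2) h6
        simp only at h7
        rw [h7]
    obtain ⟨e1, e2⟩ := hyx n le_rfl
    have h6 := hf' n
    have h7 := hcons n
    rw [e2, h5] at h7
    rw [e1, h4] at h6
    by_cases hex : ∃ i, i < n ∧ x i = v
    · have hfu : f v () = ((t (Nat.find hex), d (Nat.find hex)), x (Nat.find hex + 1)) :=
        dif_pos hex
      rw [hfu] at h6
      have h8 : (e n).1 = t (Nat.find hex) := congrArg (fun z => z.1.1) h6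
      have hs := Nat.find_spec hex
      have h9 : l = t (Nat.find hex) := hlt _ hs.1 (x (Nat.find hex)) _ l c w (hRi _ hs.1.le)
        (by rw [hs.2]; exact he)
      exact hne (by rw [h9, ← h8, h7])
    · have hfu : f v () = ((l, c), w) := by
        show (if h : ∃ i, i < n ∧ x i = v then _ else _) = _
        rw [dif_neg hex, if_pos rfl]
      rw [hfu] at h6
      have h8 : (e n).1 = l := congrArg (fun z => z.1.1) h6
      exact hne (by rw [← h8, h7])

end one

/-- If a memory structure suffices for `W` over one-player games, then Eve can play positionally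
in one-player games with the product objective. -/
theorem lift_onePlayer (W : Set (ℕ → C)) (M : Type) (m₀ : M) (μ : M → C → M)
    (h : ∀ G : Game.{u} C, G.OnePlayer → G.EveWins W → G.WinsWith W M m₀ μ)
    (G : Game.{u} (M × C)) (hG : G.OnePlayer) (hW : G.EveWins (lift W M m₀ μ)) :
    G.PositionalWins (lift W M m₀ μ) := by
  classical
  by_cases hbr : ∃ n v s l c w, R m₀ μ G n v s ∧ G.edge v (l, c) w ∧ l ≠ s
  · exact positional_of_break hG W hbr
  have hlab : ∀ n v s l c w, R m₀ μ G n v s → G.edge v (l, c) w → l = s := by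
    intro n v s l c w h1 h2
    by_contra hne
    exact hbr ⟨n, v, s, l, c, w, h1, h2, hne⟩
  have hplay : ∀ (x : ℕ → G.V) (d : ℕ → M × C), G.IsPlay x d → ∀ n,
      R m₀ μ G n (x n) (mem m₀ μ (fun i => (d i).2) n) ∧
        (d n).1 = mem m₀ μ (fun i => (d i).2) n := by
    intro x d hx n
    have hR : R m₀ μ G n (x n) (mem m₀ μ (fun i => (d i).2) n) := by
      induction n with
      | zero => rw [hx.1]; exact R.zero
      | succ n ih =>
        have h2 := hx.2 n
        have h3 := hlab n (x n) _ (d n).1 (d n).2 _ ih h2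
        refine R.succ n (x n) _ _ (d n).2 ih ?_
        rw [← h3]; exact h2
    exact ⟨hR, hlab n (x n) _ (d n).1 (d n).2 _ hR (hx.2 n)⟩
  let H : Game.{u} C :=
    { V := G.V
      edge := fun v c w => ∃ l, G.edge v (l, c) w
      eve := G.eve
      init := G.init
      total := fun v => by
        obtain ⟨c, w, hw⟩ := G.total v
        exact ⟨c.2, w, c.1, hw⟩ }
  have hH : H.EveWins W := by
    obtain ⟨σ, hσ1, hσ2⟩ := hW
    obtain ⟨x, d, hx, hd⟩ := exists_play G hG σ hσ1
    have hin := hσ2 x d hx fun n _ => hd n
    exact eveWins_of_path (G := H) hG (x := x) (c := fun i => (d i).2)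
      ⟨hx.1, fun n => ⟨(d n).1, hx.2 n⟩⟩ (hin fun n => (hplay x d hx n).2)
  obtain ⟨f, hf1, hf2⟩ := h H hG hH
  choose tc tw htot using G.total
  let g : G.V → Unit → (M × C) × G.V := fun v _ =>
    if hv : ∃ s, ∃ n, R m₀ μ G n v s then
      ((Classical.choose hv, (f v (Classical.choose hv)).1), (f v (Classical.choose hv)).2)
    else (tc v, tw v)
  have huniq : ∀ v s s' n n', R m₀ μ G n v s → R m₀ μ G n' v s' → s = s' := by
    intro v s s' n n' h1 h2
    rw [← hlab n v s _ _ _ h1 (htot v), ← hlab n' v s' _ _ _ h2 (htot v)]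
  have hgR : ∀ v s n, R m₀ μ G n v s → g v () = ((s, (f v s).1), (f v s).2) := by
    intro v s n hR
    have hv : ∃ s, ∃ n, R m₀ μ G n v s := ⟨s, n, hR⟩
    obtain ⟨n', hn'⟩ := Classical.choose_spec hv
    show (if hv : ∃ s, ∃ n, R m₀ μ G n v s then _ else _) = _
    rw [dif_pos hv, huniq v _ s n' n hn' hR]
  refine ⟨g, fun v _ _ => ?_, fun y e hy he => ?_⟩
  · by_cases hv : ∃ s, ∃ n, R m₀ μ G n v s
    · obtain ⟨s, n, hR⟩ := hv
      show G.edge v (g v ()).1 (g v ()).2
      rw [hgR v s n hR]
      obtain ⟨l, hl⟩ := hf1 v s (hG v)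
      have := hlab n v s l _ _ hR hl
      rw [this] at hl
      exact hl
    · have : g v () = (tc v, tw v) := dif_neg hv
      show G.edge v (g v ()).1 (g v ()).2
      rw [this]; exact htot v
  · intro _
    refine hf2 y (fun i => (e i).2) ⟨hy.1, fun n => ⟨(e n).1, hy.2 n⟩⟩ fun n _ => ?_
    have h6 := he n (hG _)
    change (e n, y (n + 1)) = g (y n) () at h6
    rw [hgR _ _ _ (hplay y e hy n).1] at h6
    have h7 : (e n).2 = (f (y n) (mem m₀ μ (fun i => (e i).2) n)).1 :=
      congrArg (fun z => z.1.2) h6
    have h8 : y (n + 1) = (f (y n) (mem m₀ μ (fun i => (e i).2) n)).2 :=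
      congrArg (fun z => z.2) h6
    exact Prod.ext h7 h8

/-! ### Arbitrary games -/

/-- If Eve can play positionally in all games with the product objective, then the memory
structure suffices for `W` in all games. -/
theorem lift_all (W : Set (ℕ → C)) (M : Type) (m₀ : M) (μ : M → C → M)
    (h : ∀ G : Game.{u} (M × C), G.EveWins (lift W M m₀ μ) → G.PositionalWins (lift W M m₀ μ))
    (G : Game.{u} C) (hW : G.EveWins W) : G.WinsWith W M m₀ μ := by
  let K : Game.{u} (M × C) :=
    { V := G.V × M
      edge := fun p a q => a.1 = p.2 ∧ G.edge p.1 a.2 q.1 ∧ q.2 = μ p.2 a.2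
      eve := fun p => G.eve p.1
      init := (G.init, m₀)
      total := fun p => by
        obtain ⟨c, w, hw⟩ := G.total p.1
        exact ⟨(p.2, c), (w, μ p.2 c), rfl, hw, rfl⟩ }
  have hK : K.EveWins (lift W M m₀ μ) := by
    obtain ⟨σ, hσ1, hσ2⟩ := hW
    refine ⟨fun h p => ((p.2, (σ (h.map fun z => (z.1.1, z.2.2)) p.1).1),
      ((σ (h.map fun z => (z.1.1, z.2.2)) p.1).2,
        μ p.2 (σ (h.map fun z => (z.1.1, z.2.2)) p.1).1)),
      fun h p hp => ⟨rfl, hσ1 _ _ hp, rfl⟩, fun x d hx hd _ => ?_⟩
    refine hσ2 (fun n => (x n).1) (fun n => (d n).2)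
      ⟨congrArg Prod.fst hx.1, fun n => (hx.2 n).2.1⟩ fun n hn => ?_
    have h6 := hd n hn
    have h7 : hist (fun n => (x n).1) (fun n => (d n).2) n =
        (hist x d n).map fun z => (z.1.1, z.2.2) := by
      simp [hist]
    rw [h7]
    exact Prod.ext (congrArg (fun z => z.1.2) h6) (congrArg (fun z => z.2.1) h6)
  obtain ⟨f, hf1, hf2⟩ := h K hK
  refine ⟨fun v m => ((f (v, m) ()).1.2, (f (v, m) ()).2.1), fun v m hv => (hf1 (v, m) () hv).2.1,
    fun x c hx hc => ?_⟩
  refine hf2 (fun n => (x n, mem m₀ μ c n)) (fun n => (mem m₀ μ c n, c n))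
    ⟨Prod.ext hx.1 rfl, fun n => ⟨rfl, hx.2 n, rfl⟩⟩ (fun n hn => ?_) fun n => rfl
  have h6 := hc n hn
  obtain ⟨h7, -, h8⟩ := hf1 (x n, mem m₀ μ c n) () hn
  have h9 : c n = (f (x n, mem m₀ μ c n) ()).1.2 := congrArg Prod.fst h6
  have h10 : x (n + 1) = (f (x n, mem m₀ μ c n) ()).2.1 := congrArg Prod.snd h6
  refine Prod.ext (Prod.ext h7.symm h9) (Prod.ext h10 ?_)
  show μ (mem m₀ μ c n) (c n) = _
  rw [h9]
  exact h8.symm

end Pool.Agent.X193.CHR
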