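import Pool.Agent.X193.CHR.Words

set_option autoImplicit false

universe u

namespace Pool.Agent.X193.CHR

open Filter

lemma ChromaticWins.mono {C : Type} {G : Game.{u} C} {W : Set (ℕ → C)} {k l : ℕ} (hkl : k ≤ l)
    (h : G.ChromaticWins W k) : G.ChromaticWins W l := by
  obtain ⟨m₀, μ, f, hf, hw⟩ := h
  let μ' : Fin l → C → Fin l := fun s c =>
    if h : s.val < k then Fin.castLE hkl (μ ⟨s.val, h⟩ c) else s
  have hmem : ∀ (c : ℕ → C) n, mem (Fin.castLE hkl m₀) μ' c n = Fin.castLE hkl (mem m₀ μ c n) := by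
    intro c n
    induction n with
    | zero => rfl
    | succ n ih =>
      show μ' (mem (Fin.castLE hkl m₀) μ' c n) (c n) = _
      rw [ih]
      show (if h : (Fin.castLE hkl (mem m₀ μ c n)).val < k then _ else _) = _
      rw [dif_pos (by exact (mem m₀ μ c n).isLt)]
      rfl
  refine ⟨Fin.castLE hkl m₀, μ', fun v s => if h : s.val < k then f v ⟨s.val, h⟩ else f v m₀,
    fun v m hv => ?_, fun x c hx hc => hw x c hx fun n hn => ?_⟩
  · by_cases h : m.val < k
    · simp only [h, dite_true]; exact hf v _ hv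
    · simp only [h, dite_false]; exact hf v _ hv
  · have h1 := hc n hn
    rw [hmem] at h1
    rw [h1]
    show (if h : (Fin.castLE hkl (mem m₀ μ c n)).val < k then _ else _) = _
    rw [dif_pos (by exact (mem m₀ μ c n).isLt)]
    rfl

lemma freq_mod {c : ℕ → Fin 3} {a : Fin 3} (r : ℕ) (h : ∀ t, c (4 * t + r) = a) :
    ∃ᶠ n in atTop, c n = a := by
  rw [frequently_atTop]
  intro N
  exact ⟨4 * N + r, by omega, h N⟩

/-! ### One-player games -/

/-- One vertex with a loop of every colour. -/
def loops : Game.{u} (Fin 3) where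
  V := PUnit
  edge _ _ _ := True
  eve _ := True
  init := PUnit.unit
  total _ := ⟨0, PUnit.unit, trivial⟩

lemma loops_wins : loops.{u}.EveWins W3 := by
  refine ⟨fun h _ => (if h.length % 2 = 0 then 0 else 1, PUnit.unit), fun _ _ _ => trivial,
    fun x c _ hc => ?_⟩
  have h : ∀ n, c n = if n % 2 = 0 then 0 else 1 := by
    intro n
    have := congrArg Prod.fst (hc n trivial)
    simp only [hist_length] at this
    exact this
  refine ⟨0, 1, by decide, freq_mod 0 fun t => ?_, freq_mod 1 fun t => ?_⟩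
  · rw [h, if_pos (by omega)]
  · rw [h, if_neg (by omega)]

lemma loops_not : ¬ loops.{u}.ChromaticWins W3 1 := by
  rintro ⟨m₀, μ, f, -, hw⟩
  have h := hw (fun _ => PUnit.unit) (fun _ => (f PUnit.unit m₀).1) ⟨rfl, fun _ => trivial⟩
    (fun n _ => by
      rw [Subsingleton.elim (mem m₀ μ (fun _ => (f PUnit.unit m₀).1) n) m₀]
      exact Prod.ext rfl rfl)
  obtain ⟨i, j, hij, hi, hj⟩ := h
  obtain ⟨n, -, e1⟩ := frequently_atTop.1 hi 0
  obtain ⟨n', -, e2⟩ := frequently_atTop.1 hj 0
  exact hij (e1.symm.trans e2)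

/-! ### Two-player games -/

/-- The vertices: Adam chooses a hub; in the hub `p` Eve chooses one of two cycles. -/
inductive T
  | root : T
  | hub : Fin 3 → T
  | mid : Fin 3 → Bool → T
  deriving DecidableEq, Fintype

/-- The two colours at the hub `p`. -/
def col (p : Fin 3) (b : Bool) : Fin 3 := if b then p + 2 else p + 1

lemma col_inj {p : Fin 3} {b b' : Bool} (h : col p b = col p b') : b = b' := by
  revert p b b'; decide

/-- The edges. -/
inductive E : T → Fin 3 → T → Prop
  | root (p : Fin 3) : E T.root 0 (T.hub p)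
  | out (p : Fin 3) (b : Bool) : E (T.hub p) (col p b) (T.mid p b)
  | back (p : Fin 3) (b : Bool) : E (T.mid p b) (col p b) (T.hub p)

/-- The game in which Eve needs three memory states. -/
def hubs : Game.{u} (Fin 3) where
  V := ULift.{u} T
  edge v c w := E v.down c w.down
  eve v := ∃ p, v.down = T.hub p
  init := ⟨T.root⟩
  total v := by
    rcases v with ⟨_ | p | ⟨p, b⟩⟩
    · exact ⟨0, ⟨T.hub 0⟩, E.root 0⟩
    · exact ⟨col p true, ⟨T.mid p true⟩, E.out p true⟩
    · exact ⟨col p b, ⟨T.hub p⟩, E.back p b⟩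

lemma hubs_finite : Finite hubs.{u}.V := inferInstanceAs (Finite (ULift.{u} T))

lemma E_root {c : Fin 3} {w : T} (h : E T.root c w) : c = 0 ∧ ∃ p, w = T.hub p := by
  cases h with
  | root p => exact ⟨rfl, p, rfl⟩

lemma E_hub {p c : Fin 3} {w : T} (h : E (T.hub p) c w) : ∃ b, c = col p b ∧ w = T.mid p b := by
  cases h with
  | out p b => exact ⟨b, rfl, rfl⟩

lemma E_mid {p c : Fin 3} {b : Bool} {w : T} (h : E (T.mid p b) c w) :
    c = col p b ∧ w = T.hub p := by
  cases h with
  | back p b => exact ⟨rfl, rfl⟩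

/-- The structure of the plays. -/
lemma hubs_play {x : ℕ → hubs.{u}.V} {c : ℕ → Fin 3} (h : hubs.IsPlay x c) :
    ∃ (p : Fin 3) (β : ℕ → Bool), c 0 = 0 ∧ ∀ t, (x (2 * t + 1)).down = T.hub p ∧
      (x (2 * t + 2)).down = T.mid p (β t) ∧ c (2 * t + 1) = col p (β t) ∧
      c (2 * t + 2) = col p (β t) := by
  have h0 := h.2 0
  rw [h.1] at h0
  obtain ⟨hc0, p, hp⟩ := E_root h0
  have hub : ∀ t, (x (2 * t + 1)).down = T.hub p := by
    intro t
    induction t with
    | zero => exact hp
    | succ t ih =>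
      have h1 := h.2 (2 * t + 1)
      change E (x (2 * t + 1)).down _ _ at h1
      rw [ih] at h1
      obtain ⟨b, -, hb⟩ := E_hub h1
      have h2 := h.2 (2 * t + 1 + 1)
      change E (x (2 * t + 1 + 1)).down _ _ at h2
      rw [hb] at h2
      exact (E_mid h2).2
  have hb : ∀ t, ∃ b, c (2 * t + 1) = col p b ∧ (x (2 * t + 2)).down = T.mid p b := by
    intro t
    have h1 := h.2 (2 * t + 1)
    change E (x (2 * t + 1)).down _ _ at h1
    rw [hub t] at h1
    exact E_hub h1
  choose β hβ using hb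
  refine ⟨p, β, hc0, fun t => ⟨hub t, (hβ t).2, (hβ t).1, ?_⟩⟩
  have h2 := h.2 (2 * t + 2)
  change E (x (2 * t + 2)).down _ _ at h2
  rw [(hβ t).2] at h2
  exact (E_mid h2).1

/-- Eve uses the two cycles in turn. -/
def strat (n : ℕ) : T → Fin 3 × T
  | T.root => (0, T.hub 0)
  | T.hub p => (col p (decide (n / 2 % 2 = 1)), T.mid p (decide (n / 2 % 2 = 1)))
  | T.mid p b => (col p b, T.hub p)

lemma hubs_wins : hubs.{u}.EveWins W3 := by
  refine ⟨fun h v => ((strat h.length v.down).1, ⟨(strat h.length v.down).2⟩), ?_, ?_⟩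
  · rintro h ⟨v⟩ ⟨p, rfl⟩
    exact E.out p _
  · intro x c hx hc
    obtain ⟨p, β, -, h⟩ := hubs_play hx
    have hβ : ∀ t, c (2 * t + 1) = col p (decide (t % 2 = 1)) := by
      intro t
      have h1 := congrArg Prod.fst (hc (2 * t + 1) ⟨p, (h t).1⟩)
      change c (2 * t + 1) = (strat (hist x c (2 * t + 1)).length (x (2 * t + 1)).down).1 at h1
      rw [(h t).1, hist_length] at h1
      rw [h1]
      show col p _ = col p _
      congr 1
      have : (2 * t + 1) / 2 = t := by omega
      rw [this]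
    refine ⟨col p false, col p true, fun h => by simpa using col_inj h, freq_mod 1 fun t => ?_,
      freq_mod 3 fun t => ?_⟩
    · rw [show 4 * t + 1 = 2 * (2 * t) + 1 by ring, hβ]
      congr 1
      simp
    · rw [show 4 * t + 3 = 2 * (2 * t + 1) + 1 by ring, hβ]
      congr 1
      simp

lemma decide_two : ∀ μ : Fin 2 → Fin 3 → Fin 2, ¬ ∀ p : Fin 3, ∃ a b : Fin 2, a ≠ b ∧
    μ (μ a (col p false)) (col p false) = b ∧ μ (μ b (col p true)) (col p true) = a := by
  decide

/-- A sequence which takes both values infinitely often switches from each to the other. -/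
lemma switch {β : ℕ → Bool} {b : Bool} (h1 : ∃ᶠ t in atTop, β t = b)
    (h2 : ∃ᶠ t in atTop, β t = !b) : ∃ t, β t = b ∧ β (t + 1) = !b := by
  by_contra hcon
  push Not at hcon
  obtain ⟨t, -, ht⟩ := frequently_atTop.1 h1 0
  have h3 : ∀ n, t ≤ n → β n = b := by
    intro n hn
    induction n, hn using Nat.le_induction with
    | base => exact ht
    | succ n hn ih =>
      have := hcon n ih
      revert this
      cases β (n + 1) <;> cases b <;> simp
  obtain ⟨n, hn, he⟩ := frequently_atTop.1 h2 t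
  rw [h3 n hn] at he
  revert he
  cases b <;> simp

lemma hubs_not : ¬ hubs.{u}.ChromaticWins W3 2 := by
  rintro ⟨m₀, μ, f, hf, hw⟩
  refine decide_two μ fun p => ?_
  -- the choices at the hub `p`
  have hg : ∀ s : Fin 2, ∃ b, f ⟨T.hub p⟩ s = (col p b, ⟨T.mid p b⟩) := by
    intro s
    obtain ⟨b, h1, h2⟩ := E_hub (hf ⟨T.hub p⟩ s ⟨p, rfl⟩)
    exact ⟨b, Prod.ext h1 (ULift.down_injective h2)⟩
  choose g hg using hg
  -- the states at the hub
  let st : ℕ → Fin 2 := fun t => Nat.rec (μ m₀ 0)
    (fun _ s => μ (μ s (col p (g s))) (col p (g s))) t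
  let y : ℕ → T := fun n => if n = 0 then T.root else
    if n % 2 = 1 then T.hub p else T.mid p (g (st (n / 2 - 1)))
  let x : ℕ → hubs.{u}.V := fun n => ULift.up (y n)
  let c : ℕ → Fin 3 := fun n => if n = 0 then 0 else col p (g (st ((n - 1) / 2)))
  have hy1 : ∀ t, y (2 * t + 1) = T.hub p := by
    intro t
    show (if _ then _ else _) = _
    rw [if_neg (by omega), if_pos (by omega)]
  have hy2 : ∀ t, y (2 * t + 2) = T.mid p (g (st t)) := by
    intro t
    show (if _ then _ else _) = _
    rw [if_neg (by omega), if_neg (by omega), show (2 * t + 2) / 2 - 1 = t by omega]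
  have hx1 : ∀ t, x (2 * t + 1) = ⟨T.hub p⟩ := fun t => congrArg ULift.up (hy1 t)
  have hx2 : ∀ t, x (2 * t + 2) = ⟨T.mid p (g (st t))⟩ := fun t => congrArg ULift.up (hy2 t)
  have hc1 : ∀ t, c (2 * t + 1) = col p (g (st t)) := by
    intro t
    show (if _ then _ else _) = _
    rw [if_neg (by omega), show (2 * t + 1 - 1) / 2 = t by omega]
  have hc2 : ∀ t, c (2 * t + 2) = col p (g (st t)) := by
    intro t
    show (if _ then _ else _) = _
    rw [if_neg (by omega), show (2 * t + 2 - 1) / 2 = t by omega]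
  have hm : ∀ t, mem m₀ μ c (2 * t + 1) = st t := by
    intro t
    induction t with
    | zero => rfl
    | succ t ih =>
      rw [show 2 * (t + 1) + 1 = 2 * t + 1 + 1 + 1 by ring]
      show μ (μ (mem m₀ μ c (2 * t + 1)) (c (2 * t + 1))) (c (2 * t + 2)) = _
      rw [ih, hc1, hc2]
  have hcase : ∀ n, n = 0 ∨ (∃ t, n = 2 * t + 1) ∨ ∃ t, n = 2 * t + 2 := by
    intro n
    rcases Nat.even_or_odd' n with ⟨k, h | h⟩
    · rcases k with _ | k
      · left; omega
      · right; right; exact ⟨k, by omega⟩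
    · right; left; exact ⟨k, h⟩
  have hplay : hubs.IsPlay x c := by
    refine ⟨rfl, fun n => ?_⟩
    rcases hcase n with rfl | ⟨t, rfl⟩ | ⟨t, rfl⟩
    · exact E.root p
    · show E (x (2 * t + 1)).down (c (2 * t + 1)) (x (2 * t + 2)).down
      rw [hx1, hx2, hc1]
      exact E.out p _
    · show E (x (2 * t + 2)).down (c (2 * t + 2)) (x (2 * (t + 1) + 1)).down
      rw [hx1, hx2, hc2]
      exact E.back p _
  have hW := hw x c hplay (by
    intro n hn
    rcases hcase n with rfl | ⟨t, rfl⟩ | ⟨t, rfl⟩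
    · obtain ⟨q, hq⟩ := hn
      exact absurd hq (by simp [x, y])
    · rw [hm t, hx1, hg, hc1]
      show (_, x (2 * t + 2)) = _
      rw [hx2]
    · obtain ⟨q, hq⟩ := hn
      rw [hx2] at hq
      exact absurd hq (by simp))
  -- both choices occur infinitely often
  let β : ℕ → Bool := fun t => g (st t)
  have hfreq : ∀ b, ∃ᶠ t in atTop, β t = b := by
    intro b
    by_contra hb
    rw [not_frequently] at hb
    obtain ⟨N, hN⟩ := eventually_atTop.1 hb
    have hconst : ∀ n, 2 * N + 1 ≤ n → c n = col p (!b) := by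
      intro n hn
      have hnb : ∀ t, N ≤ t → g (st t) = !b := by
        intro t ht
        have := hN t ht
        revert this
        show ¬ g (st t) = b → _
        cases g (st t) <;> cases b <;> simp
      rcases hcase n with rfl | ⟨t, rfl⟩ | ⟨t, rfl⟩
      · omega
      · rw [hc1, hnb t (by omega)]
      · rw [hc2, hnb t (by omega)]
    obtain ⟨i, j, hij, hi, hj⟩ := hW
    obtain ⟨n, hn, e1⟩ := frequently_atTop.1 hi (2 * N + 1)
    obtain ⟨n', hn', e2⟩ := frequently_atTop.1 hj (2 * N + 1)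
    rw [hconst n hn] at e1
    rw [hconst n' hn'] at e2
    exact hij (e1.symm.trans e2)
  obtain ⟨t, h1, h2⟩ := switch (hfreq false) (hfreq true)
  obtain ⟨t', h3, h4⟩ := switch (hfreq true) (hfreq false)
  change g (st t) = false at h1
  change g (st (t + 1)) = true at h2
  change g (st t') = true at h3
  change g (st (t' + 1)) = false at h4
  have hne : st t ≠ st (t + 1) := fun h => by rw [← h, h1] at h2; exact absurd h2 (by simp)
  have hdist : ∀ s s' : Fin 2, g s = g s' → s = s' := by
    intro s s' hs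
    have htwo : ∀ a b u : Fin 2, a ≠ b → u = a ∨ u = b := by decide
    rcases htwo _ _ s hne with rfl | rfl <;> rcases htwo _ _ s' hne with rfl | rfl
    · rfl
    · rw [h1, h2] at hs; exact absurd hs (by simp)
    · rw [h1, h2] at hs; exact absurd hs (by simp)
    · rfl
  have e1 : st t' = st (t + 1) := hdist _ _ (by rw [h3, h2])
  have e2 : st (t' + 1) = st t := hdist _ _ (by rw [h4, h1])
  refine ⟨st t, st (t + 1), hne, ?_, ?_⟩
  · show _ = μ (μ (st t) (col p (g (st t)))) (col p (g (st t)))
    rw [h1]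
  · rw [← e2, ← e1]
    show _ = μ (μ (st t') (col p (g (st t')))) (col p (g (st t')))
    rw [h3]

end Pool.Agent.X193.CHR
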