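import Mathlib

/-!
# Games on graphs, chromatic strategies and parity automata
-/

set_option autoImplicit false

universe u

namespace Pool.Agent.X193.CHR

open Filter

/-- A game with colours in `C`: a (possibly infinite) directed graph with edges coloured by `C`
in which every vertex has an outgoing edge, the set of the vertices owned by Eve (the others
belong to Adam), and an initial vertex. -/
structure Game (C : Type) where
  V : Type u
  edge : V → C → V → Prop
  eve : V → Prop
  init : V
  total : ∀ v, ∃ c w, edge v c w

variable {C : Type}

/-- `(v, c)` is an infinite play: it starts in the initial vertex and follows the edges. -/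
def Game.IsPlay (G : Game.{u} C) (v : ℕ → G.V) (c : ℕ → C) : Prop :=
  v 0 = G.init ∧ ∀ n, G.edge (v n) (c n) (v (n + 1))

/-- The history of a play before its `n`-th step. -/
def hist {V : Type u} (v : ℕ → V) (c : ℕ → C) (n : ℕ) : List (V × C) :=
  (List.range n).map fun i => (v i, c i)

/-- Eve wins the game with objective `W`: she has a strategy, a function of the whole history
which chooses an outgoing edge at her vertices, such that the colours of every play which is
consistent with it lie in `W`. -/
def Game.EveWins (G : Game.{u} C) (W : Set (ℕ → C)) : Prop :=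
  ∃ σ : List (G.V × C) → G.V → C × G.V,
    (∀ h v, G.eve v → G.edge v (σ h v).1 (σ h v).2) ∧
    ∀ v c, G.IsPlay v c → (∀ n, G.eve (v n) → (c n, v (n + 1)) = σ (hist v c n) (v n)) → c ∈ W

/-- The memory states along a colour sequence, for the initial state `m₀` and the update `μ`. -/
def mem {M : Type} (m₀ : M) (μ : M → C → M) (c : ℕ → C) : ℕ → M
  | 0 => m₀
  | n + 1 => μ (mem m₀ μ c n) (c n)

/-- Eve wins with the chromatic memory structure `(M, m₀, μ)`: there is a function which chooses
an outgoing edge for every vertex of Eve and every memory state, such that the colours of every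
play consistent with it lie in `W`. -/
def Game.WinsWith (G : Game.{u} C) (W : Set (ℕ → C)) (M : Type) (m₀ : M) (μ : M → C → M) :
    Prop :=
  ∃ f : G.V → M → C × G.V,
    (∀ v m, G.eve v → G.edge v (f v m).1 (f v m).2) ∧
    ∀ v c, G.IsPlay v c → (∀ n, G.eve (v n) → (c n, v (n + 1)) = f (v n) (mem m₀ μ c n)) → c ∈ W

/-- Eve has a winning chromatic strategy with `k` memory states. -/
def Game.ChromaticWins (G : Game.{u} C) (W : Set (ℕ → C)) (k : ℕ) : Prop :=
  ∃ (m₀ : Fin k) (μ : Fin k → C → Fin k), G.WinsWith W (Fin k) m₀ μ

/-- Eve has a winning positional strategy. -/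
def Game.PositionalWins (G : Game.{u} C) (W : Set (ℕ → C)) : Prop :=
  G.WinsWith W Unit () fun _ _ => ()

/-- A one-player game: Eve owns every vertex. -/
def Game.OnePlayer (G : Game.{u} C) : Prop := ∀ v, G.eve v

/-- `k` is the chromatic memory of the objective `W` over the games which satisfy `P`: the least
`k` such that in every such game won by Eve she has a winning chromatic strategy with `k` memory
states. -/
def ChromaticMemory (P : Game.{u} C → Prop) (W : Set (ℕ → C)) (k : ℕ) : Prop :=
  IsLeast {k | ∀ G : Game.{u} C, P G → G.EveWins W → G.ChromaticWins W k} k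

/-- An objective is `ω`-regular if a deterministic parity automaton recognises it: finitely many
states, priorities on the transitions, and a word is accepted if the largest priority which
occurs infinitely often on its run is even. -/
def OmegaRegular (W : Set (ℕ → C)) : Prop :=
  ∃ (Q : Type) (_ : Finite Q) (q₀ : Q) (δ : Q → C → Q) (pr : Q → C → ℕ), ∀ c : ℕ → C,
    c ∈ W ↔ ∃ p, Even p ∧ (∃ᶠ n in atTop, pr (mem q₀ δ c n) (c n) = p) ∧
      ∀ᶠ n in atTop, pr (mem q₀ δ c n) (c n) ≤ p

/-- The objective over three colours: two different colours both occur infinitely often. -/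
def W3 : Set (ℕ → Fin 3) :=
  {c | ∃ i j, i ≠ j ∧ (∃ᶠ n in atTop, c n = i) ∧ (∃ᶠ n in atTop, c n = j)}

/-- The product objective for a memory structure: the words over `M × C` whose first components
are not the run of the memory structure on the second components, and those whose second
components form a word of `W`. -/
def lift (W : Set (ℕ → C)) (M : Type) (m₀ : M) (μ : M → C → M) : Set (ℕ → M × C) :=
  {x | (∀ n, (x n).1 = mem m₀ μ (fun i => (x i).2) n) → (fun i => (x i).2) ∈ W}

end Pool.Agent.X193.CHR
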