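import Pool.Agent.X193.CHR.Words

set_option autoImplicit false

universe u

namespace Pool.Agent.X193.CHR

open Filter

/-- A play which is consistent with a given strategy in a one-player game. -/
lemma exists_play {C : Type} (G : Game.{u} C) (h1 : G.OnePlayer)
    (σ : List (G.V × C) → G.V → C × G.V) (hσ : ∀ h v, G.eve v → G.edge v (σ h v).1 (σ h v).2) :
    ∃ x c, G.IsPlay x c ∧ ∀ n, (c n, x (n + 1)) = σ (hist x c n) (x n) := by
  let p : ℕ → List (G.V × C) × G.V := fun n => Nat.rec ([], G.init)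
    (fun _ q => (q.1 ++ [(q.2, (σ q.1 q.2).1)], (σ q.1 q.2).2)) n
  let x : ℕ → G.V := fun n => (p n).2
  let c : ℕ → C := fun n => (σ (p n).1 (p n).2).1
  have hh : ∀ n, hist x c n = (p n).1 := by
    intro n
    induction n with
    | zero => rfl
    | succ n ih => rw [hist_append, ih]
  refine ⟨x, c, ⟨rfl, fun n => hσ _ _ (h1 _)⟩, fun n => ?_⟩
  rw [hh n]

variable (G : Game.{u} (Fin 3)) (i j : Fin 3)

/-- An infinite path from `v` on which the colours `i` and `j` occur infinitely often. -/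
def PathFrom (v : G.V) (x : ℕ → G.V) (c : ℕ → Fin 3) : Prop :=
  x 0 = v ∧ (∀ n, G.edge (x n) (c n) (x (n + 1))) ∧ (∃ᶠ n in atTop, c n = i) ∧
    ∃ᶠ n in atTop, c n = j

/-- There is such a path from `v`. -/
def Good (v : G.V) : Prop := ∃ x c, PathFrom G i j v x c

variable {G i j}

lemma freq_tail {c : ℕ → Fin 3} {a : Fin 3} (h : ∃ᶠ n in atTop, c n = a) :
    ∃ᶠ n in atTop, c (n + 1) = a := by
  rw [frequently_atTop] at h ⊢
  intro N
  obtain ⟨n, hn, he⟩ := h (N + 1)
  refine ⟨n - 1, by omega, ?_⟩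
  rw [Nat.sub_add_cancel (by omega)]
  exact he

lemma PathFrom.tail {v : G.V} {x : ℕ → G.V} {c : ℕ → Fin 3} (h : PathFrom G i j v x c) :
    PathFrom G i j (x 1) (fun n => x (n + 1)) fun n => c (n + 1) :=
  ⟨rfl, fun n => h.2.1 (n + 1), freq_tail h.2.2.1, freq_tail h.2.2.2⟩

/-- The distance to an edge of colour `l`. -/
noncomputable def dist (G : Game.{u} (Fin 3)) (i j l : Fin 3) (v : G.V) : ℕ :=
  sInf {n | ∃ x c, PathFrom G i j v x c ∧ c n = l}

lemma exists_toward {v : G.V} (hv : Good G i j v) (l : Fin 3) (hl : l = i ∨ l = j) :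
    ∃ e : Fin 3 × G.V, G.edge v e.1 e.2 ∧ Good G i j e.2 ∧
      (e.1 = l ∨ dist G i j l e.2 < dist G i j l v) := by
  have hne : {n | ∃ x c, PathFrom G i j v x c ∧ c n = l}.Nonempty := by
    obtain ⟨x, c, h⟩ := hv
    have : ∃ᶠ n in atTop, c n = l := by
      rcases hl with rfl | rfl
      · exact h.2.2.1
      · exact h.2.2.2
    obtain ⟨n, -, hn⟩ := frequently_atTop.1 this 0
    exact ⟨n, x, c, h, hn⟩
  obtain ⟨x, c, h, hn⟩ := Nat.sInf_mem hne
  refine ⟨(c 0, x 1), ?_, ⟨_, _, h.tail⟩, ?_⟩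
  · have := h.2.1 0
    rw [h.1] at this
    exact this
  · show c 0 = l ∨ dist G i j l (x 1) < sInf {n | ∃ x c, PathFrom G i j v x c ∧ c n = l}
    by_cases h0 : sInf {n | ∃ x c, PathFrom G i j v x c ∧ c n = l} = 0
    · rw [h0] at hn; exact Or.inl hn
    · right
      obtain ⟨k, hk⟩ := Nat.exists_eq_succ_of_ne_zero h0
      rw [hk] at hn ⊢
      refine Nat.lt_succ_of_le (Nat.sInf_le ⟨_, _, h.tail, ?_⟩)
      exact hn

/-- The other one of the two states. -/
def fl (s : Fin 2) : Fin 2 := if s = 0 then 1 else 0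

lemma fl_of_ne {s t : Fin 2} (h : s ≠ t) : fl s = t := by
  revert s t; decide

/-- Two memory states are enough in one-player games. -/
theorem upper_two (G : Game.{u} (Fin 3)) (h1 : G.OnePlayer) (h : G.EveWins W3) :
    G.ChromaticWins W3 2 := by
  obtain ⟨σ, hσ1, hσ2⟩ := h
  obtain ⟨x0, c0, hp, hc0⟩ := exists_play G h1 σ hσ1
  obtain ⟨i, j, hij, hi, hj⟩ := hσ2 x0 c0 hp fun n _ => hc0 n
  have hinit : Good G i j G.init := ⟨x0, c0, hp.1, hp.2, hi, hj⟩
  let t : Fin 2 → Fin 3 := fun s => if s = 0 then j else i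
  have ht : ∀ s, t s = i ∨ t s = j := by
    intro s; by_cases hs : s = 0
    · exact Or.inr (if_pos hs)
    · exact Or.inl (if_neg hs)
  have hmove : ∀ (v : G.V) (s : Fin 2), ∃ e : Fin 3 × G.V, G.edge v e.1 e.2 ∧
      (Good G i j v → Good G i j e.2 ∧
        (e.1 = t s ∨ dist G i j (t s) e.2 < dist G i j (t s) v)) := by
    intro v s
    by_cases hv : Good G i j v
    · obtain ⟨e, he, he2⟩ := exists_toward hv (t s) (ht s)
      exact ⟨e, he, fun _ => he2⟩
    · obtain ⟨c, w, hw⟩ := G.total v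
      exact ⟨(c, w), hw, fun h => absurd h hv⟩
  choose f hf1 hf2 using hmove
  let μ : Fin 2 → Fin 3 → Fin 2 := fun s c => if c = t s then fl s else s
  refine ⟨0, μ, f, fun v m _ => hf1 v m, fun x c hx hc => ?_⟩
  have hc' : ∀ n, (c n, x (n + 1)) = f (x n) (mem 0 μ c n) := fun n => hc n (h1 _)
  have hgood : ∀ n, Good G i j (x n) := by
    intro n
    induction n with
    | zero => rw [hx.1]; exact hinit
    | succ n ih =>
      have h2 := (hf2 (x n) (mem 0 μ c n) ih).1
      rw [← hc' n] at h2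
      exact h2
  have key : ∀ (d n : ℕ), dist G i j (t (mem 0 μ c n)) (x n) ≤ d →
      ∃ m, n ≤ m ∧ mem 0 μ c m = mem 0 μ c n ∧ c m = t (mem 0 μ c n) := by
    intro d
    induction d with
    | zero =>
      intro n hd
      have h2 := (hf2 (x n) (mem 0 μ c n) (hgood n)).2
      rw [← hc' n] at h2
      rcases h2 with h2 | h2
      · exact ⟨n, le_rfl, rfl, h2⟩
      · omega
    | succ d ih =>
      intro n hd
      by_cases hcn : c n = t (mem 0 μ c n)
      · exact ⟨n, le_rfl, rfl, hcn⟩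
      · have h2 := (hf2 (x n) (mem 0 μ c n) (hgood n)).2
        rw [← hc' n] at h2
        have hs : mem 0 μ c (n + 1) = mem 0 μ c n := if_neg hcn
        rcases h2 with h2 | h2
        · exact absurd h2 hcn
        · obtain ⟨m, hm, e1, e2⟩ := ih (n + 1) (by rw [hs]; simp only at h2; omega)
          exact ⟨m, by omega, by rw [e1, hs], by rw [e2, hs]⟩
  have key2 : ∀ (s : Fin 2) (N : ℕ), ∃ m, N ≤ m ∧ mem 0 μ c m = s ∧ c m = t s := by
    intro s N
    obtain ⟨m, hm, e1, e2⟩ := key _ N le_rfl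
    by_cases hs : mem 0 μ c N = s
    · exact ⟨m, hm, by rw [e1, hs], by rw [e2, hs]⟩
    · have hm1 : mem 0 μ c (m + 1) = s := by
        show (if c m = t (mem 0 μ c m) then fl (mem 0 μ c m) else mem 0 μ c m) = s
        rw [e1, if_pos e2]
        exact fl_of_ne hs
      obtain ⟨m', hm', e3, e4⟩ := key _ (m + 1) le_rfl
      exact ⟨m', by omega, by rw [e3, hm1], by rw [e4, hm1]⟩
  refine ⟨i, j, hij, ?_, ?_⟩
  · rw [frequently_atTop]
    intro N
    obtain ⟨m, hm, -, e⟩ := key2 1 N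
    exact ⟨m, hm, e⟩
  · rw [frequently_atTop]
    intro N
    obtain ⟨m, hm, -, e⟩ := key2 0 N
    exact ⟨m, hm, e⟩

end Pool.Agent.X193.CHR
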