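import Pool.Agent.X193.CHR.Words

set_option autoImplicit false

universe u

namespace Pool.Agent.X193.CHR

open Filter

variable (G : Game.{u} (Fin 3))

/-- The strategy `σ` wins from the vertex `v`. -/
def WinBy (σ : List (G.V × Fin 3) → G.V → Fin 3 × G.V) (v : G.V) : Prop :=
  (∀ h w, G.eve w → G.edge w (σ h w).1 (σ h w).2) ∧
  ∀ (x : ℕ → G.V) (c : ℕ → Fin 3), x 0 = v → (∀ n, G.edge (x n) (c n) (x (n + 1))) →
    (∀ n, G.eve (x n) → (c n, x (n + 1)) = σ (hist x c n) (x n)) → c ∈ W3

/-- Eve wins from the vertex `v`. -/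
def Win (v : G.V) : Prop := ∃ σ, WinBy G σ v

variable {G}

lemma WinBy.step {σ : List (G.V × Fin 3) → G.V → Fin 3 × G.V} {v w : G.V} {c : Fin 3}
    (hσ : WinBy G σ v) (he : G.edge v c w) (hm : G.eve v → (c, w) = σ [] v) :
    WinBy G (fun h => σ ((v, c) :: h)) w := by
  refine ⟨fun h w' hw' => hσ.1 _ _ hw', fun x d hx0 hx hc => ?_⟩
  let x' : ℕ → G.V := fun n => Nat.casesOn n v x
  let d' : ℕ → Fin 3 := fun n => Nat.casesOn n c d
  have h := hσ.2 x' d' rfl
    (by
      intro n
      cases n with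
      | zero => show G.edge v c (x 0); rw [hx0]; exact he
      | succ n => exact hx n)
    (by
      intro n
      cases n with
      | zero =>
        intro hv
        show (c, x 0) = σ [] v
        rw [hx0]; exact hm hv
      | succ n =>
        intro hv
        rw [hist_succ]
        exact hc n hv)
  have h2 := (W3_shift d' 1).2 h
  exact h2

lemma Win.eve {v : G.V} (h : Win G v) (hv : G.eve v) : ∃ c w, G.edge v c w ∧ Win G w := by
  obtain ⟨σ, hσ⟩ := h
  exact ⟨_, _, hσ.1 [] v hv, _, hσ.step (hσ.1 [] v hv) fun _ => rfl⟩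

lemma Win.adam {v w : G.V} {c : Fin 3} (h : Win G v) (hv : ¬ G.eve v) (he : G.edge v c w) :
    Win G w := by
  obtain ⟨σ, hσ⟩ := h
  exact ⟨_, hσ.step he fun h => absurd h hv⟩

variable (G)

/-- Eve can force a colour different from `m`, staying in her winning region, in a way measured
by the ordinal `α`. -/
def B (m : Fin 3) (α : Ordinal.{u}) (v : G.V) : Prop :=
  (G.eve v ∧ ∃ c w, G.edge v c w ∧ Win G w ∧ (c = m → ∃ β, ∃ _ : β < α, B m β w)) ∨
  (¬ G.eve v ∧ ∀ c w, G.edge v c w → c = m → ∃ β, ∃ _ : β < α, B m β w)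
termination_by α

variable {G}

lemma exists_B (m : Fin 3) {v : G.V} (hv : Win G v) : ∃ α, B G m α v := by
  by_contra hB
  obtain ⟨σ, hσ⟩ := hv
  let S : Type u := {p : List (G.V × Fin 3) × G.V //
    WinBy G (fun h => σ (p.1 ++ h)) p.2 ∧ ¬ ∃ α, B G m α p.2}
  have next : ∀ p : S, ∃ q : S, G.edge p.1.2 m q.1.2 ∧
      (G.eve p.1.2 → (m, q.1.2) = σ p.1.1 p.1.2) ∧ q.1.1 = p.1.1 ++ [(p.1.2, m)] := by
    rintro ⟨⟨h, w⟩, hw, hn⟩
    by_cases he : G.eve w
    · have hedge := hw.1 [] w he
      simp only [List.append_nil] at hedge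
      have hstep := hw.step hedge (fun _ => by simp)
      have hcol : (σ h w).1 = m ∧ ¬ ∃ α, B G m α (σ h w).2 := by
        by_contra hcon
        apply hn
        by_cases hc : (σ h w).1 = m
        · have : ∃ α, B G m α (σ h w).2 := by
            by_contra h'; exact hcon ⟨hc, h'⟩
          obtain ⟨α, hα⟩ := this
          refine ⟨Order.succ α, ?_⟩
          rw [B]
          exact Or.inl ⟨he, _, _, hedge, ⟨_, hstep⟩, fun _ => ⟨α, Order.lt_succ α, hα⟩⟩
        · refine ⟨0, ?_⟩
          rw [B]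
          exact Or.inl ⟨he, _, _, hedge, ⟨_, hstep⟩, fun h => absurd h hc⟩
      refine ⟨⟨(h ++ [(w, m)], (σ h w).2), ?_, hcol.2⟩, ?_, ?_, rfl⟩
      · have := hstep
        rw [hcol.1] at this
        simpa [List.append_assoc] using this
      · have := hedge
        rw [hcol.1] at this
        exact this
      · intro _
        show (m, (σ h w).2) = σ h w
        rw [← hcol.1]
    · have : ∃ w', G.edge w m w' ∧ ¬ ∃ α, B G m α w' := by
        by_contra hcon
        push Not at hcon
        apply hn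
        have hc : ∀ w' : {w' // G.edge w m w'}, ∃ α, B G m α w'.1 := by
          intro w'
          exact hcon w'.1 w'.2
        choose r hr using hc
        refine ⟨⨆ w', Order.succ (r w'), ?_⟩
        rw [B]
        refine Or.inr ⟨he, fun c w' hw' hcm => ?_⟩
        subst hcm
        refine ⟨r ⟨w', hw'⟩, ?_, hr ⟨w', hw'⟩⟩
        exact (Order.lt_succ _).trans_le
          (Ordinal.le_iSup (fun w' => Order.succ (r w')) ⟨w', hw'⟩)
      obtain ⟨w', hw', hn'⟩ := this
      refine ⟨⟨(h ++ [(w, m)], w'), ?_, hn'⟩, hw', fun h => absurd h he, rfl⟩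
      have := hw.step hw' (fun h => absurd h he)
      simpa [List.append_assoc] using this
  choose nx h1 h2 h3 using next
  let p : ℕ → S := fun n => Nat.rec ⟨([], v), by simpa using hσ, hB⟩ (fun _ q => nx q) n
  let x : ℕ → G.V := fun n => (p n).1.2
  have hh : ∀ n, hist x (fun _ => m) n = (p n).1.1 := by
    intro n
    induction n with
    | zero => rfl
    | succ n ih =>
      rw [hist_append, ih]
      exact (h3 (p n)).symm
  have hW := hσ.2 x (fun _ => m) rfl (fun n => h1 (p n)) (fun n he => by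
    rw [hh n]
    exact h2 (p n) he)
  obtain ⟨i, j, hij, hi, hj⟩ := hW
  obtain ⟨n, hn, e1⟩ := frequently_atTop.1 hi 0
  obtain ⟨n', hn', e2⟩ := frequently_atTop.1 hj 0
  exact hij (e1.symm.trans e2)

/-- The rank of a vertex for the colour `m`. -/
noncomputable def rk (m : Fin 3) (v : G.V) : Ordinal.{u} := sInf {α | B G m α v}

lemma B_rk (m : Fin 3) {v : G.V} (hv : Win G v) : B G m (rk m v) v :=
  csInf_mem (exists_B m hv)

lemma rk_le {m : Fin 3} {v : G.V} {α : Ordinal.{u}} (h : B G m α v) : rk m v ≤ α :=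
  csInf_le' h

lemma exists_move (v : G.V) (m : Fin 3) : ∃ e : Fin 3 × G.V, G.edge v e.1 e.2 ∧
    (G.eve v → Win G v → Win G e.2 ∧ (e.1 = m → rk m e.2 < rk m v)) := by
  by_cases h : G.eve v ∧ Win G v
  · have hb := B_rk m h.2
    rw [B] at hb
    rcases hb with ⟨_, c, w, hw, hw', hc⟩ | ⟨hn, _⟩
    · refine ⟨(c, w), hw, fun _ _ => ⟨hw', fun hcm => ?_⟩⟩
      obtain ⟨β, hβ, hB⟩ := hc hcm
      exact (rk_le hB).trans_lt hβ
    · exact absurd h.1 hn
  · obtain ⟨c, w, hw⟩ := G.total v
    exact ⟨(c, w), hw, fun h1 h2 => absurd ⟨h1, h2⟩ h⟩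

/-- Three memory states are enough in all games. -/
theorem upper_three (G : Game.{u} (Fin 3)) (h : G.EveWins W3) : G.ChromaticWins W3 3 := by
  refine ⟨0, upd, ?_⟩
  choose f hf1 hf2 using (exists_move (G := G))
  refine ⟨f, fun v m _ => hf1 v m, fun x c hx hc => ?_⟩
  have hwin : ∀ n, Win G (x n) := by
    intro n
    induction n with
    | zero =>
      obtain ⟨σ, hσ1, hσ2⟩ := h
      exact ⟨σ, hσ1, fun y d hy0 hy hd => hσ2 y d ⟨by rw [hy0, hx.1], hy⟩ hd⟩
    | succ n ih =>
      by_cases he : G.eve (x n)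
      · have h1 := (hf2 (x n) (mem 0 upd c n) he ih).1
        rw [← hc n he] at h1
        exact h1
      · exact ih.adam he (hx.2 n)
  rw [W3_iff 0]
  intro hev
  simp only [ne_eq, not_not] at hev
  obtain ⟨N, hN⟩ := eventually_atTop.1 hev
  have hm : ∀ n, N ≤ n → mem 0 upd c n = mem 0 upd c N := by
    intro n hn
    induction n, hn using Nat.le_induction with
    | base => rfl
    | succ n hn ih => rw [← ih]; exact hN n hn
  have hdec : ∀ n, N ≤ n →
      rk (mem 0 upd c N) (x (n + 1)) < rk (mem 0 upd c N) (x n) := by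
    intro n hn
    have hcn : c n = mem 0 upd c N := by rw [hN n hn, hm n hn]
    by_cases he : G.eve (x n)
    · have h1 := (hf2 (x n) (mem 0 upd c n) he (hwin n)).2
      rw [← hc n he, hm n hn] at h1
      exact h1 hcn
    · have hb := B_rk (mem 0 upd c N) (hwin n)
      rw [B] at hb
      rcases hb with ⟨h', _⟩ | ⟨_, hb⟩
      · exact absurd h' he
      · obtain ⟨β, hβ, hB⟩ := hb _ _ (hx.2 n) hcn
        exact (rk_le hB).trans_lt hβ
  have := (wellFounded_iff_isEmpty_descending_chain.1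
    (wellFounded_lt : WellFounded ((· < ·) : Ordinal.{u} → Ordinal.{u} → Prop)))
  exact this.elim ⟨fun n => rk (mem 0 upd c N) (x (N + n)), fun n => hdec (N + n) (by omega)⟩

end Pool.Agent.X193.CHR
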