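import Pool.Agent.X193.CHR.Defs

set_option autoImplicit false

universe u

namespace Pool.Agent.X193.CHR

open Filter

/-- The update function which remembers the last colour. -/
def upd (_ : Fin 3) (x : Fin 3) : Fin 3 := x

lemma W3_iff (a : Fin 3) (c : ℕ → Fin 3) :
    c ∈ W3 ↔ ∃ᶠ n in atTop, c n ≠ mem a upd c n := by
  constructor
  · rintro ⟨i, j, hij, hi, hj⟩
    by_contra h
    rw [not_frequently] at h
    simp only [ne_eq, not_not] at h
    obtain ⟨N, hN⟩ := eventually_atTop.1 h
    have key : ∀ n, N ≤ n → c n = c N := by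
      intro n hn
      induction n, hn using Nat.le_induction with
      | base => rfl
      | succ n hn ih =>
        rw [hN (n + 1) (by omega)]
        exact ih
    obtain ⟨p, hp, hpi⟩ := frequently_atTop.1 hi N
    obtain ⟨q, hq, hqj⟩ := frequently_atTop.1 hj N
    exact hij (by rw [← hpi, ← hqj, key p hp, key q hq])
  · intro h
    have h1 : ∃ i, ∃ᶠ n in atTop, c n = i := by
      by_contra hn
      have hn' : ∀ i, ∀ᶠ n in atTop, ¬ c n = i := fun i => by_contra fun h => hn ⟨i, h⟩
      have := (eventually_all.2 hn')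
      obtain ⟨N, hN⟩ := eventually_atTop.1 this
      exact hN N le_rfl (c N) rfl
    obtain ⟨i, hi⟩ := h1
    by_contra hW
    have h2 : ∀ j, ∀ᶠ n in atTop, j ≠ i → ¬ c n = j := by
      intro j
      by_cases hj : j = i
      · exact Eventually.of_forall fun n h => absurd hj h
      · by_contra hne
        refine hW ⟨i, j, fun h => hj h.symm, hi, ?_⟩
        intro hev
        exact hne (hev.mono fun n hn _ => hn)
    obtain ⟨N, hN⟩ := eventually_atTop.1 (eventually_all.2 h2)
    have h3 : ∀ n, N ≤ n → c n = i := by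
      intro n hn
      by_contra hne
      exact hN n hn (c n) hne rfl
    obtain ⟨n, hn, hne⟩ := frequently_atTop.1 h (N + 1)
    obtain ⟨k, rfl⟩ : ∃ k, n = k + 1 := ⟨n - 1, by omega⟩
    apply hne
    show c (k + 1) = c k
    rw [h3 _ (by omega), h3 _ (by omega)]

lemma W3_regular : OmegaRegular W3 := by
  refine ⟨Fin 3, inferInstance, 0, upd, fun q x => if x = q then 1 else 2, fun c => ?_⟩
  rw [W3_iff 0]
  constructor
  · intro h
    refine ⟨2, by decide, h.mono fun n hn => by simp [hn], Eventually.of_forall fun n => ?_⟩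
    show (if _ then 1 else 2) ≤ 2
    split_ifs <;> decide
  · rintro ⟨p, hp, h, -⟩
    refine h.mono fun n hn => ?_
    intro he
    change (if c n = mem 0 upd c n then 1 else 2) = p at hn
    rw [if_pos he] at hn
    rw [← hn] at hp
    exact absurd hp (by decide)

/-- The objective does not depend on finite prefixes. -/
lemma W3_shift (c : ℕ → Fin 3) (k : ℕ) : (fun n => c (n + k)) ∈ W3 ↔ c ∈ W3 := by
  have key : ∀ i, (∃ᶠ n in atTop, c (n + k) = i) ↔ ∃ᶠ n in atTop, c n = i := by
    intro i
    rw [frequently_atTop, frequently_atTop]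
    constructor
    · intro h N
      obtain ⟨n, hn, he⟩ := h N
      exact ⟨n + k, by omega, he⟩
    · intro h N
      obtain ⟨n, hn, he⟩ := h (N + k)
      refine ⟨n - k, by omega, ?_⟩
      rw [Nat.sub_add_cancel (by omega)]
      exact he
  unfold W3
  simp only [Set.mem_ofPred_eq, key]

lemma hist_succ {C : Type} {V : Type u} (v : ℕ → V) (c : ℕ → C) (n : ℕ) :
    hist v c (n + 1) = (v 0, c 0) :: hist (fun i => v (i + 1)) (fun i => c (i + 1)) n := by
  unfold hist
  rw [List.range_succ_eq_map]
  simp [Function.comp_def]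

lemma hist_length {C : Type} {V : Type u} (v : ℕ → V) (c : ℕ → C) (n : ℕ) :
    (hist v c n).length = n := by simp [hist]

lemma hist_append {C : Type} {V : Type u} (v : ℕ → V) (c : ℕ → C) (n : ℕ) :
    hist v c (n + 1) = hist v c n ++ [(v n, c n)] := by
  unfold hist
  rw [List.range_succ]
  simp

lemma mem_shift {C M : Type} (m₀ : M) (μ : M → C → M) (c : ℕ → C) (k n : ℕ) :
    mem m₀ μ c (n + k) = mem (mem m₀ μ c k) μ (fun i => c (i + k)) n := by
  induction n with
  | zero => simp [mem]
  | succ n ih =>
    rw [show n + 1 + k = (n + k) + 1 by ring]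
    simp only [mem, ih]

end Pool.Agent.X193.CHR
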